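import Pool.Agent.Results.MP_a09a4b_an.MixedBeatsAlpern

/-!
# Alpern's strategy is optimal against a mobile hider

`IsAlpern lam v` (from the imported file): `lam k ∈ (0,1)` and the static payoff of the rule that
guesses `lam k * a + (1 - lam k) * b` in state `(a, b, k)` is `v` for every secret in `[0,1]` that
is not one of its guesses.
-/

set_option autoImplicit false

open scoped ENNReal BigOperators
open MeasureTheory Filter Topology
open Pool.Agent.Results.MP_a09a4b_an.MixedBeatsAlpern (IsAlpern Cst)

namespace Pool.Agent.Results.MP_b21e06_an.AlpernOptimal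

/-- A pure searcher strategy: the next guess as a function of the answers received so far (in the
order received). The answer to the guess `g` when the hider is at `h` is `cmp g h`, that is `lt`
if `g < h`, `gt` if `g > h` and `eq` if `g = h`. -/
abbrev Searcher : Type := List Ordering → ℝ

/-- A pure hider strategy: the position of the hider as a function of the guesses made so far (in
the order made); the answers are determined by the guesses and the own positions. -/
abbrev Hider : Type := List ℝ → ℝ

/-- The guesses and the answers of the first `n` rounds. -/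
noncomputable def play (s : Searcher) (H : Hider) : ℕ → List ℝ × List Ordering
  | 0 => ([], [])
  | n + 1 => ((play s H n).1 ++ [s (play s H n).2],
      (play s H n).2 ++ [cmp (s (play s H n).2) (H (play s H n).1)])

/-- guess number `n` (counted from `0`) -/
noncomputable def guess (s : Searcher) (H : Hider) (n : ℕ) : ℝ := s (play s H n).2

/-- the position of the hider when guess number `n` is made -/
noncomputable def pos (s : Searcher) (H : Hider) (n : ℕ) : ℝ := H (play s H n).1

/-- The hider strategy `H` is allowed: all positions are in `[0,1]`, and the position after the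
guesses `gs` is consistent with all the answers given (the answer to the guess `gs[i]` was its
comparison with the position `H (gs.take i)`). -/
def Valid (H : Hider) : Prop :=
  ∀ gs : List ℝ, H gs ∈ Set.Icc (0 : ℝ) 1 ∧
    ∀ (i : ℕ) (hi : i < gs.length), cmp gs[i] (H gs) = cmp gs[i] (H (gs.take i))

/-- The payoff to the hider: `∑ |g_n - h_∞|` where `h_∞` is the limit of the positions, and `⊤` if
the positions do not converge. -/
noncomputable def payoff (s : Searcher) (H : Hider) : ℝ≥0∞ :=
  ⨅ (x : ℝ) (_ : Tendsto (pos s H) atTop (𝓝 x)), ∑' n, ENNReal.ofReal |guess s H n - x|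

/-- One step of Alpern's rule: in state `(a, b, k)` the guess is `lam k * a + (1 - lam k) * b`;
`a` and `b` bound the secret and `k` is the number of answers `lt` minus the number of answers
`gt`; after an answer `eq` the same guess is repeated. -/
noncomputable def alpStep (lam : ℤ → ℝ) (q : ℝ × ℝ × ℤ) (o : Ordering) : ℝ × ℝ × ℤ :=
  match o with
  | Ordering.lt => (lam q.2.2 * q.1 + (1 - lam q.2.2) * q.2.1, q.2.1, q.2.2 + 1)
  | Ordering.gt => (q.1, lam q.2.2 * q.1 + (1 - lam q.2.2) * q.2.1, q.2.2 - 1)
  | Ordering.eq => (lam q.2.2 * q.1 + (1 - lam q.2.2) * q.2.1,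
      lam q.2.2 * q.1 + (1 - lam q.2.2) * q.2.1, q.2.2)

/-- Alpern's pure searcher strategy -/
noncomputable def alpern (lam : ℤ → ℝ) : Searcher := fun l =>
  lam (l.foldl (alpStep lam) (0, 1, 0)).2.2 * (l.foldl (alpStep lam) (0, 1, 0)).1 +
    (1 - lam (l.foldl (alpStep lam) (0, 1, 0)).2.2) * (l.foldl (alpStep lam) (0, 1, 0)).2.1

/-! ### The constants `w k` -/

/-- the values of the states -/
structure Vals (lam : ℤ → ℝ) (w : ℤ → ℝ) : Prop where
  lam_mem : ∀ k, 0 < lam k ∧ lam k < 1
  nonneg : ∀ k, 0 ≤ w k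
  ge : ∀ k : ℤ, (k : ℝ) ≤ w k
  left : ∀ k, w k = (1 - lam k) * (1 + w (k - 1))
  right : ∀ k : ℤ, w k = k * (1 - lam k) + lam k * w (k + 1)

lemma exists_vals {lam : ℤ → ℝ} {v : ℝ≥0∞} (hv : v ≠ ⊤) (h : IsAlpern lam v) :
    ∃ w, Vals lam w ∧ w 0 = v.toReal := by
  obtain ⟨hl, hc⟩ := h
  have h0 : Cst lam 0 v.toReal := by
    intro t h0 h1 hg
    have := hc t ⟨h0.le, h1.le⟩ hg
    have e : Pool.Agent.Results.MP_a09a4b_an.MixedBeatsAlpern.payoff
        (Pool.Agent.Results.MP_a09a4b_an.MixedBeatsAlpern.ruleFrom lam (0, 1, 0)) t = v := this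
    rw [e]
    exact ⟨hv, by simp⟩
  choose w hw using Pool.Agent.Results.MP_a09a4b_an.MixedBeatsAlpern.exists_Cst lam hl _ h0
  refine ⟨w, ⟨hl, fun k =>
    (Pool.Agent.Results.MP_a09a4b_an.MixedBeatsAlpern.Cst_nonneg lam k _ (hw k)).1, fun k =>
    (Pool.Agent.Results.MP_a09a4b_an.MixedBeatsAlpern.Cst_nonneg lam k _ (hw k)).2, ?_, ?_⟩, ?_⟩
  · intro k
    have h1 := Pool.Agent.Results.MP_a09a4b_an.MixedBeatsAlpern.Cst_unique lam _ _ _ (hw (k - 1))
      (Pool.Agent.Results.MP_a09a4b_an.MixedBeatsAlpern.Cst_left lam hl k _ (hw k))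
    have h2 : 0 < 1 - lam k := by linarith [(hl k).2]
    rw [h1]
    field_simp
    ring
  · intro k
    have h1 := Pool.Agent.Results.MP_a09a4b_an.MixedBeatsAlpern.Cst_unique lam _ _ _ (hw (k + 1))
      (Pool.Agent.Results.MP_a09a4b_an.MixedBeatsAlpern.Cst_right lam hl k _ (hw k))
    have h2 : 0 < lam k := (hl k).1
    rw [h1]
    field_simp
    ring
  · exact Pool.Agent.Results.MP_a09a4b_an.MixedBeatsAlpern.Cst_unique lam _ _ _ (hw 0) h0

/-! ### Alpern's strategy guarantees `w 0` -/

/-- the state of Alpern's rule after `n` rounds -/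
noncomputable def ast (lam : ℤ → ℝ) (H : Hider) (n : ℕ) : ℝ × ℝ × ℤ :=
  (play (alpern lam) H n).2.foldl (alpStep lam) (0, 1, 0)

lemma play_fst_length (s : Searcher) (H : Hider) (n : ℕ) : (play s H n).1.length = n := by
  induction n with
  | zero => rfl
  | succ n ih => simp [play, ih]

lemma play_fst_take (s : Searcher) (H : Hider) {m n : ℕ} (h : m ≤ n) :
    (play s H n).1.take m = (play s H m).1 := by
  induction n with
  | zero =>
    obtain rfl : m = 0 := by omega
    rfl
  | succ n ih =>
    rcases Nat.lt_or_ge n m with h1 | h1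
    · obtain rfl : m = n + 1 := by omega
      exact List.take_of_length_le (play_fst_length s H (n + 1)).le
    · have : (play s H (n + 1)).1 = (play s H n).1 ++ [s (play s H n).2] := rfl
      rw [this, List.take_append_of_le_length (by rw [play_fst_length]; exact h1), ih h1]

lemma play_fst_get (s : Searcher) (H : Hider) {m n : ℕ} (h : m < n)
    (h' : m < (play s H n).1.length) : (play s H n).1[m] = guess s H m := by
  induction n with
  | zero => omega
  | succ n ih =>
    have e : (play s H (n + 1)).1 = (play s H n).1 ++ [s (play s H n).2] := rfl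
    rcases Nat.lt_or_ge m n with h1 | h1
    · have h2 : m < (play s H n).1.length := by rw [play_fst_length]; exact h1
      have h3 := ih h1 h2
      rw [← h3]
      simp only [e]
      rw [List.getElem_append_left h2]
    · obtain rfl : m = n := by omega
      simp only [e]
      rw [List.getElem_append_right (by rw [play_fst_length])]
      simp [play_fst_length, guess]

/-- the positions are consistent with the earlier answers -/
lemma pos_consistent {H : Hider} (hH : Valid H) (s : Searcher) {m n : ℕ} (h : m < n) :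
    cmp (guess s H m) (pos s H n) = cmp (guess s H m) (pos s H m) := by
  have h1 := (hH (play s H n).1).2 m (by rw [play_fst_length]; exact h)
  rw [play_fst_get s H h (by rw [play_fst_length]; exact h), play_fst_take s H h.le] at h1
  exact h1

lemma guess_alpern (lam : ℤ → ℝ) (H : Hider) (n : ℕ) : guess (alpern lam) H n =
    lam (ast lam H n).2.2 * (ast lam H n).1 + (1 - lam (ast lam H n).2.2) * (ast lam H n).2.1 :=
  rfl

lemma ast_succ (lam : ℤ → ℝ) (H : Hider) (n : ℕ) : ast lam H (n + 1) =
    alpStep lam (ast lam H n) (cmp (guess (alpern lam) H n) (pos (alpern lam) H n)) := by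
  unfold ast
  have : (play (alpern lam) H (n + 1)).2 = (play (alpern lam) H n).2 ++
    [cmp (guess (alpern lam) H n) (pos (alpern lam) H n)] := rfl
  rw [this, List.foldl_append]
  rfl

section
variable {lam : ℤ → ℝ} {w : ℤ → ℝ}

/-- what remains to be paid -/
noncomputable def rem (w : ℤ → ℝ) (q : ℝ × ℝ × ℤ) (h : ℝ) : ℝ :=
  (q.2.1 - q.1) * w q.2.2 - q.2.2 * (h - q.1)

lemma rem_nonneg (hw : Vals lam w) (q : ℝ × ℝ × ℤ) (h : ℝ) (h1 : q.1 ≤ h) (h2 : h ≤ q.2.1) :
    0 ≤ rem w q h := by
  unfold rem
  have a1 := hw.nonneg q.2.2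
  have a2 := hw.ge q.2.2
  rcases le_total 0 (q.2.2 : ℝ) with hk | hk
  · nlinarith [mul_nonneg hk (sub_nonneg.2 h2),
      mul_nonneg (sub_nonneg.2 a2) (sub_nonneg.2 (h1.trans h2))]
  · nlinarith [mul_nonneg (neg_nonneg.2 hk) (sub_nonneg.2 h1),
      mul_nonneg a1 (sub_nonneg.2 (h1.trans h2))]

/-- the state is sane and contains all later positions -/
lemma ast_inv (hw : Vals lam w) {H : Hider} (hH : Valid H) (n : ℕ) :
    (ast lam H n).1 ≤ (ast lam H n).2.1 ∧
    (∀ m, n ≤ m → pos (alpern lam) H m ∈ Set.Icc (ast lam H n).1 (ast lam H n).2.1) ∧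
    ∀ h ∈ Set.Icc (ast lam H n).1 (ast lam H n).2.1,
      ∑ i ∈ Finset.range n, |guess (alpern lam) H i - h| ≤ w 0 - rem w (ast lam H n) h := by
  induction n with
  | zero =>
    have e : ast lam H 0 = (0, 1, 0) := rfl
    rw [e]
    refine ⟨zero_le_one, fun m _ => (hH _).1, fun h _ => ?_⟩
    simp [rem]
  | succ n ih =>
    obtain ⟨h1, h2, h3⟩ := ih
    set q := ast lam H n with hq
    set g := guess (alpern lam) H n with hg
    have hgv : g = lam q.2.2 * q.1 + (1 - lam q.2.2) * q.2.1 := guess_alpern lam H n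
    have hl := hw.lam_mem q.2.2
    have hag : q.1 ≤ g := by rw [hgv]; nlinarith
    have hgb : g ≤ q.2.1 := by rw [hgv]; nlinarith
    have hcons : ∀ m, n < m → cmp g (pos (alpern lam) H m) = cmp g (pos (alpern lam) H n) :=
      fun m hm => pos_consistent hH _ hm
    rw [ast_succ, ← hg, ← hq]
    rcases lt_trichotomy g (pos (alpern lam) H n) with hlt | heq | hgt
    · have hc : cmp g (pos (alpern lam) H n) = Ordering.lt := (cmp_eq_lt_iff _ _).2 hlt
      rw [hc]
      simp only [alpStep, ← hgv]
      refine ⟨hgb, fun m hm => ⟨?_, (h2 m (by omega)).2⟩, fun h hh => ?_⟩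
      · have := hcons m (by omega)
        rw [hc, cmp_eq_lt_iff] at this
        exact this.le
      · rw [Finset.sum_range_succ, ← hg]
        have h4 := h3 h ⟨hag.trans hh.1, hh.2⟩
        rw [abs_of_nonpos (by linarith [hh.1] : g - h ≤ 0)]
        have h5 := hw.right q.2.2
        have h6 : rem w q h = (h - g) + rem w (g, q.2.1, q.2.2 + 1) h := by
          unfold rem
          simp only
          rw [h5]
          push_cast
          have : q.2.1 - g = lam q.2.2 * (q.2.1 - q.1) := by rw [hgv]; ring
          rw [this]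
          have h7 : g - q.1 = (1 - lam q.2.2) * (q.2.1 - q.1) := by rw [hgv]; ring
          linear_combination (-(q.2.2 : ℝ)) * h7
        linarith
    · have hc : cmp g (pos (alpern lam) H n) = Ordering.eq := (cmp_eq_eq_iff _ _).2 heq
      rw [hc]
      simp only [alpStep, ← hgv]
      refine ⟨le_rfl, fun m hm => ?_, fun h hh => ?_⟩
      · have := hcons m (by omega)
        rw [hc, cmp_eq_eq_iff] at this
        rw [← this]
        exact ⟨le_rfl, le_rfl⟩
      · have hhg : h = g := le_antisymm hh.2 hh.1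
        rw [Finset.sum_range_succ, ← hg, hhg, sub_self, abs_zero, add_zero]
        have h4 := h3 g ⟨hag, hgb⟩
        have h5 := rem_nonneg hw q g hag hgb
        have h6 : rem w (g, g, q.2.2) g = 0 := by simp [rem]
        rw [h6]
        linarith
    · have hc : cmp g (pos (alpern lam) H n) = Ordering.gt := (cmp_eq_gt_iff _ _).2 hgt
      rw [hc]
      simp only [alpStep, ← hgv]
      refine ⟨hag, fun m hm => ⟨(h2 m (by omega)).1, ?_⟩, fun h hh => ?_⟩
      · have := hcons m (by omega)
        rw [hc, cmp_eq_gt_iff] at this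
        exact this.le
      · rw [Finset.sum_range_succ, ← hg]
        have h4 := h3 h ⟨hh.1, hh.2.trans hgb⟩
        rw [abs_of_nonneg (by linarith [hh.2] : 0 ≤ g - h)]
        have h5 := hw.left q.2.2
        have h6 : rem w q h = (g - h) + rem w (q.1, g, q.2.2 - 1) h := by
          unfold rem
          simp only
          rw [h5]
          push_cast
          have h7 : g - q.1 = (1 - lam q.2.2) * (q.2.1 - q.1) := by rw [hgv]; ring
          linear_combination (-(1 + w (q.2.2 - 1))) * h7
        linarith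

lemma alpern_upper (hw : Vals lam w) {H : Hider} (hH : Valid H) :
    payoff (alpern lam) H ≤ ENNReal.ofReal (w 0) := by
  set q := fun n => ast lam H n with hq
  have hinv := ast_inv (lam := lam) hw hH
  -- monotonicity of the end points
  have hstep : ∀ n, (q n).1 ≤ (q (n + 1)).1 ∧ (q (n + 1)).2.1 ≤ (q n).2.1 := by
    intro n
    have hl := hw.lam_mem (q n).2.2
    have h1 := (hinv n).1
    have hgv := guess_alpern lam H n
    have hag : (q n).1 ≤ guess (alpern lam) H n := by rw [hgv]; simp only [hq] at *; nlinarith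
    have hgb : guess (alpern lam) H n ≤ (q n).2.1 := by rw [hgv]; simp only [hq] at *; nlinarith
    have e : q (n + 1) = alpStep lam (q n)
      (cmp (guess (alpern lam) H n) (pos (alpern lam) H n)) := ast_succ lam H n
    rw [e]
    rw [hgv] at hag hgb
    rcases cmp (guess (alpern lam) H n) (pos (alpern lam) H n) with _ | _ | _
    · exact ⟨hag, le_rfl⟩
    · exact ⟨hag, hgb⟩
    · exact ⟨le_rfl, hgb⟩
  have hmono : Monotone fun n => (q n).1 := monotone_nat_of_le_succ fun n => (hstep n).1
  have hanti : Antitone fun n => (q n).2.1 := antitone_nat_of_succ_le fun n => (hstep n).2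
  have hle : ∀ m n, (q m).1 ≤ (q n).2.1 := by
    intro m n
    calc (q m).1 ≤ (q (max m n)).1 := hmono (le_max_left m n)
      _ ≤ (q (max m n)).2.1 := (hinv _).1
      _ ≤ (q n).2.1 := hanti (le_max_right m n)
  have hbdd : BddAbove (Set.range fun n => (q n).1) := ⟨(q 0).2.1, by
    rintro _ ⟨n, rfl⟩
    exact hle n 0⟩
  have hbdd' : BddBelow (Set.range fun n => (q n).2.1) := ⟨(q 0).1, by
    rintro _ ⟨n, rfl⟩
    exact hle 0 n⟩
  set α := ⨆ n, (q n).1 with hα
  set β := ⨅ n, (q n).2.1 with hβ
  have hαlim : Tendsto (fun n => (q n).1) atTop (𝓝 α) := tendsto_atTop_ciSup hmono hbdd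
  have hβlim : Tendsto (fun n => (q n).2.1) atTop (𝓝 β) := tendsto_atTop_ciInf hanti hbdd'
  have hαmem : ∀ n, α ∈ Set.Icc (q n).1 (q n).2.1 := fun n =>
    ⟨le_ciSup hbdd n, ciSup_le fun m => hle m n⟩
  have hβmem : ∀ n, β ∈ Set.Icc (q n).1 (q n).2.1 := fun n =>
    ⟨le_ciInf fun m => hle n m, ciInf_le hbdd' n⟩
  have hsum : ∀ x, (∀ n, x ∈ Set.Icc (q n).1 (q n).2.1) →
      ∀ n, ∑ i ∈ Finset.range n, |guess (alpern lam) H i - x| ≤ w 0 := by
    intro x hx n
    have h1 := (hinv n).2.2 x (hx n)
    have h2 := rem_nonneg hw (ast lam H n) x (hx n).1 (hx n).2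
    linarith
  have hsummable : ∀ x, (∀ n, x ∈ Set.Icc (q n).1 (q n).2.1) →
      Summable fun i => |guess (alpern lam) H i - x| := fun x hx =>
    summable_of_sum_range_le (fun i => abs_nonneg _) (hsum x hx)
  have htend : ∀ x, (∀ n, x ∈ Set.Icc (q n).1 (q n).2.1) →
      Tendsto (fun i => guess (alpern lam) H i) atTop (𝓝 x) := by
    intro x hx
    have h1 := (hsummable x hx).tendsto_atTop_zero
    have h2 : Tendsto (fun i => guess (alpern lam) H i - x) atTop (𝓝 0) :=
      (tendsto_zero_iff_abs_tendsto_zero _).2 h1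
    have h3 := h2.add_const x
    simpa using h3
  have hαβ : α = β := tendsto_nhds_unique (htend α hαmem) (htend β hβmem)
  have hpos : Tendsto (pos (alpern lam) H) atTop (𝓝 α) := by
    refine tendsto_of_tendsto_of_tendsto_of_le_of_le hαlim (hαβ ▸ hβlim) ?_ ?_
    · intro n
      exact ((hinv n).2.1 n le_rfl).1
    · intro n
      exact ((hinv n).2.1 n le_rfl).2
  refine (iInf₂_le α hpos).trans ?_
  rw [← ENNReal.ofReal_tsum_of_nonneg (fun _ => abs_nonneg _) (hsummable α hαmem)]
  exact ENNReal.ofReal_le_ofReal ((hsummable α hαmem).tsum_le_of_sum_range_le (hsum α hαmem))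

end

/-! ### The hider's strategy -/

/-- the position of the hider in state `q` in round `n` -/
noncomputable def hp (lam : ℤ → ℝ) (t : ℕ → ℝ) (n : ℕ) (q : ℝ × ℝ × ℤ) : ℝ :=
  q.1 + (1 - lam q.2.2 - t n) * (q.2.1 - q.1)

/-- the next state after the guess `g` -/
noncomputable def stp (lam : ℤ → ℝ) (t : ℕ → ℝ) (n : ℕ) (q : ℝ × ℝ × ℤ) (g : ℝ) : ℝ × ℝ × ℤ :=
  if g < hp lam t n q then (max q.1 g, q.2.1, q.2.2 + 1)
  else if hp lam t n q < g then (q.1, min q.2.1 g, q.2.2 - 1)
  else (hp lam t n q, hp lam t n q, q.2.2)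

/-- the state after the guesses `gs` -/
noncomputable def hst (lam : ℤ → ℝ) (t : ℕ → ℝ) (gs : List ℝ) : ℕ × (ℝ × ℝ × ℤ) :=
  gs.foldl (fun p g => (p.1 + 1, stp lam t p.1 p.2 g)) (0, (0, 1, 0))

/-- the hider follows the perturbed Alpern points for `N` rounds and then stays at a point of the
last interval -/
noncomputable def hid (lam : ℤ → ℝ) (t : ℕ → ℝ) (N : ℕ) (fin : ℝ × ℝ × ℤ → ℝ) : Hider := fun gs =>
  if gs.length < N then hp lam t gs.length (hst lam t gs).2 else fin (hst lam t (gs.take N)).2

section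
variable {lam : ℤ → ℝ} {t : ℕ → ℝ}

lemma hst_append (gs : List ℝ) (g : ℝ) : hst lam t (gs ++ [g]) =
    ((hst lam t gs).1 + 1, stp lam t (hst lam t gs).1 (hst lam t gs).2 g) := by
  unfold hst
  rw [List.foldl_append]
  rfl

lemma hst_fst (gs : List ℝ) : (hst lam t gs).1 = gs.length := by
  induction gs using List.reverseRecOn with
  | nil => rfl
  | append_singleton gs g ih => rw [hst_append]; simp [ih]

/-- consistency with the answers -/
def Cons (lam : ℤ → ℝ) (t : ℕ → ℝ) (gs : List ℝ) (h : ℝ) : Prop :=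
  ∀ (i : ℕ) (g : ℝ), gs[i]? = some g → cmp g h = cmp g (hp lam t i (hst lam t (gs.take i)).2)

lemma Cons.append {gs : List ℝ} {h g : ℝ} (h1 : Cons lam t gs h)
    (h2 : cmp g h = cmp g (hp lam t gs.length (hst lam t gs).2)) : Cons lam t (gs ++ [g]) h := by
  intro i g' hi
  rcases Nat.lt_trichotomy i gs.length with h3 | h3 | h3
  · rw [List.getElem?_append_left h3] at hi
    rw [List.take_append_of_le_length h3.le]
    exact h1 i g' hi
  · subst h3
    rw [List.getElem?_append_right le_rfl] at hi
    simp only [Nat.sub_self, List.getElem?_cons_zero, Option.some.injEq] at hi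
    subst hi
    rw [List.take_append_of_le_length le_rfl, List.take_length]
    exact h2
  · rw [List.getElem?_eq_none (by simp; omega)] at hi
    cases hi

/-- the state is sane -/
structure Inv (lam : ℤ → ℝ) (t : ℕ → ℝ) (gs : List ℝ) : Prop where
  zero_le : 0 ≤ (hst lam t gs).2.1
  le_one : (hst lam t gs).2.2.1 ≤ 1
  abs_le : |(hst lam t gs).2.2.2| ≤ gs.length
  cons : ((hst lam t gs).2.1 = (hst lam t gs).2.2.1 ∧ Cons lam t gs (hst lam t gs).2.1) ∨
    ((hst lam t gs).2.1 < (hst lam t gs).2.2.1 ∧
      ∀ h ∈ Set.Ioo (hst lam t gs).2.1 (hst lam t gs).2.2.1, Cons lam t gs h)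

lemma hst_inv {N : ℕ} (hl : ∀ k, 0 < lam k ∧ lam k < 1)
    (ht : ∀ n < N, ∀ k : ℤ, |k| ≤ N → 0 < t n ∧ t n < 1 - lam k) (gs : List ℝ)
    (hgs : gs.length ≤ N) : Inv lam t gs := by
  induction gs using List.reverseRecOn with
  | nil =>
    refine ⟨le_rfl, le_rfl, by simp [hst], Or.inr ⟨zero_lt_one, fun h _ i g hi => ?_⟩⟩
    simp at hi
  | append_singleton gs g ih =>
    have hlen : gs.length < N := by
      have : (gs ++ [g]).length = gs.length + 1 := by simp
      omega
    have hI := ih hlen.le
    set q := (hst lam t gs).2 with hq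
    have hk : |q.2.2| ≤ N := hI.abs_le.trans (by exact_mod_cast hlen.le)
    obtain ⟨ht0, ht1⟩ := ht gs.length hlen q.2.2 hk
    obtain ⟨hl0, hl1⟩ := hl q.2.2
    have e : (hst lam t (gs ++ [g])).2 = stp lam t gs.length q g := by
      rw [hst_append, hst_fst]
    set hh := hp lam t gs.length q with hhh
    have hhv : hh = q.1 + (1 - lam q.2.2 - t gs.length) * (q.2.1 - q.1) := rfl
    have hkabs : |q.2.2 + 1| ≤ (gs.length : ℤ) + 1 := by
      have h1 := hI.abs_le
      rw [abs_le] at h1 ⊢
      constructor <;> linarith [h1.1, h1.2]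
    have hkabs' : |q.2.2 - 1| ≤ (gs.length : ℤ) + 1 := by
      have h1 := hI.abs_le
      rw [abs_le] at h1 ⊢
      constructor <;> linarith [h1.1, h1.2]
    have hab : q.1 ≤ q.2.1 := by
      rcases hI.cons with h1 | h1
      · exact h1.1.le
      · exact h1.1.le
    have hh1 : q.1 ≤ hh := by rw [hhv]; nlinarith
    have hh2 : hh ≤ q.2.1 := by rw [hhv]; nlinarith
    have hlen' : (((gs ++ [g]).length : ℕ) : ℤ) = (gs.length : ℤ) + 1 := by simp
    rcases lt_trichotomy g hh with hlt | heq | hgt
    · have es : stp lam t gs.length q g = (max q.1 g, q.2.1, q.2.2 + 1) := if_pos hlt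
      refine ⟨?_, ?_, ?_, ?_⟩
      · rw [e, es]; exact hI.zero_le.trans (le_max_left _ _)
      · rw [e, es]; exact hI.le_one
      · rw [e, es, hlen']; exact hkabs
      · rw [e, es]
        simp only
        rcases hI.cons with ⟨h1, h2⟩ | ⟨h1, h2⟩
        · left
          have hhe : hh = q.1 := le_antisymm (hh2.trans h1.ge) hh1
          have h3 : max q.1 g = q.1 := max_eq_left (by rw [← hhe]; exact hlt.le)
          rw [h3]
          refine ⟨h1, h2.append ?_⟩
          rw [← hq, ← hhh, hhe]
        · right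
          have h3 : hh < q.2.1 := by rw [hhv]; nlinarith
          refine ⟨max_lt h1 (hlt.trans h3), fun h hh' => (h2 h ⟨(le_max_left _ _).trans_lt hh'.1,
            hh'.2⟩).append ?_⟩
          have h4 : g < h := (le_max_right _ _).trans_lt hh'.1
          rw [(cmp_eq_lt_iff _ _).2 h4]
          exact ((cmp_eq_lt_iff _ _).2 hlt).symm
    · have es : stp lam t gs.length q g = (hh, hh, q.2.2) := by
        unfold stp
        rw [if_neg (by rw [← hhh, heq]; exact lt_irrefl _), if_neg (by
          rw [← hhh, heq]; exact lt_irrefl _)]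
      refine ⟨?_, ?_, ?_, ?_⟩
      · rw [e, es]; exact hI.zero_le.trans hh1
      · rw [e, es]; exact hh2.trans hI.le_one
      · rw [e, es, hlen']
        exact hI.abs_le.trans (by linarith)
      · rw [e, es]
        left
        refine ⟨rfl, ?_⟩
        simp only
        have h5 : Cons lam t gs hh := by
          rcases hI.cons with ⟨h1, h2⟩ | ⟨h1, h2⟩
          · have hhe : hh = q.1 := le_antisymm (hh2.trans h1.ge) hh1
            rw [hhe]
            exact h2
          · refine h2 hh ⟨?_, ?_⟩
            · rw [hhv]; nlinarith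
            · rw [hhv]; nlinarith
        exact h5.append rfl
    · have es : stp lam t gs.length q g = (q.1, min q.2.1 g, q.2.2 - 1) := by
        unfold stp
        rw [if_neg (by rw [← hhh]; exact hgt.le.not_gt), if_pos (by rw [← hhh]; exact hgt)]
      refine ⟨?_, ?_, ?_, ?_⟩
      · rw [e, es]; exact hI.zero_le
      · rw [e, es]; exact (min_le_left _ _).trans hI.le_one
      · rw [e, es, hlen']; exact hkabs'
      · rw [e, es]
        simp only
        rcases hI.cons with ⟨h1, h2⟩ | ⟨h1, h2⟩
        · left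
          have hhe : hh = q.1 := le_antisymm (hh2.trans h1.ge) hh1
          have h3 : min q.2.1 g = q.2.1 := min_eq_left (by rw [← h1, ← hhe]; exact hgt.le)
          rw [h3]
          refine ⟨h1, h2.append ?_⟩
          rw [← hq, ← hhh, hhe]
        · right
          have h3 : q.1 < hh := by rw [hhv]; nlinarith
          refine ⟨lt_min h1 (h3.trans hgt), fun h hh' => (h2 h ⟨hh'.1,
            hh'.2.trans_le (min_le_left _ _)⟩).append ?_⟩
          have h4 : h < g := hh'.2.trans_le (min_le_right _ _)
          rw [(cmp_eq_gt_iff _ _).2 h4]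
          exact ((cmp_eq_gt_iff _ _).2 hgt).symm

/-- the last choice is a point of the last interval -/
def FinOK (fin : ℝ × ℝ × ℤ → ℝ) : Prop :=
  ∀ q : ℝ × ℝ × ℤ, ∃ r, 0 < r ∧ r < 1 ∧ fin q = q.1 + r * (q.2.1 - q.1)

lemma hid_valid {N : ℕ} (hl : ∀ k, 0 < lam k ∧ lam k < 1)
    (ht : ∀ n < N, ∀ k : ℤ, |k| ≤ N → 0 < t n ∧ t n < 1 - lam k) {fin : ℝ × ℝ × ℤ → ℝ}
    (hf : FinOK fin) : Valid (hid lam t N fin) := by
  -- positions of the form `a + r (b - a)`
  have key : ∀ gs : List ℝ, gs.length ≤ N → ∀ r, 0 < r → r < 1 →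
      (hst lam t gs).2.1 + r * ((hst lam t gs).2.2.1 - (hst lam t gs).2.1) ∈ Set.Icc (0 : ℝ) 1 ∧
      Cons lam t gs ((hst lam t gs).2.1 +
        r * ((hst lam t gs).2.2.1 - (hst lam t gs).2.1)) := by
    intro gs hgs r hr0 hr1
    have hI := hst_inv hl ht gs hgs
    have h0 := hI.zero_le
    have h1 := hI.le_one
    rcases hI.cons with ⟨h2, h3⟩ | ⟨h2, h3⟩
    · rw [← h2, sub_self, mul_zero, add_zero]
      exact ⟨⟨h0, h2.le.trans h1⟩, h3⟩
    · refine ⟨⟨by nlinarith, by nlinarith⟩, h3 _ ⟨by nlinarith, by nlinarith⟩⟩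
  intro gs
  by_cases hgs : gs.length < N
  · have hI := hst_inv hl ht gs hgs.le
    have hk : |(hst lam t gs).2.2.2| ≤ N := hI.abs_le.trans (by exact_mod_cast hgs.le)
    obtain ⟨ht0, ht1⟩ := ht gs.length hgs _ hk
    obtain ⟨hl0, hl1⟩ := hl (hst lam t gs).2.2.2
    have e : hid lam t N fin gs = hp lam t gs.length (hst lam t gs).2 := if_pos hgs
    obtain ⟨h1, h2⟩ := key gs hgs.le (1 - lam (hst lam t gs).2.2.2 - t gs.length)
      (by linarith) (by linarith)
    rw [e]
    refine ⟨h1, fun i hi => ?_⟩
    have h3 := h2 i gs[i] (List.getElem?_eq_getElem hi)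
    have e2 : hid lam t N fin (gs.take i) = hp lam t i (hst lam t (gs.take i)).2 := by
      have hlen : (gs.take i).length = i := by simp; omega
      unfold hid
      rw [hlen, if_pos (by omega)]
    rw [e2]
    exact h3
  · have hN : N ≤ gs.length := not_lt.1 hgs
    have hlenN : (gs.take N).length = N := by simp; omega
    have e : hid lam t N fin gs = fin (hst lam t (gs.take N)).2 := if_neg hgs
    obtain ⟨r, hr0, hr1, hr⟩ := hf (hst lam t (gs.take N)).2
    obtain ⟨h1, h2⟩ := key (gs.take N) hlenN.le r hr0 hr1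
    rw [e, hr]
    refine ⟨h1, fun i hi => ?_⟩
    rcases Nat.lt_or_ge i N with hiN | hiN
    · have h3 := h2 i gs[i] (by
        rw [List.getElem?_take_of_lt hiN]
        exact List.getElem?_eq_getElem hi)
      have e2 : hid lam t N fin (gs.take i) = hp lam t i (hst lam t (gs.take i)).2 := by
        have hlen : (gs.take i).length = i := by simp; omega
        unfold hid
        rw [hlen, if_pos hiN]
      rw [e2]
      rw [List.take_take, min_eq_left hiN.le] at h3
      exact h3
    · have e2 : hid lam t N fin (gs.take i) = fin (hst lam t (gs.take N)).2 := by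
        have hlen : (gs.take i).length = i := by simp; omega
        unfold hid
        rw [hlen, if_neg (by omega), List.take_take, min_eq_left hiN]
      rw [e2, hr]

/-! ### The run of a pure searcher strategy against it -/

/-- states and answers -/
noncomputable def rn (lam : ℤ → ℝ) (t : ℕ → ℝ) (s : Searcher) :
    ℕ → (ℝ × ℝ × ℤ) × List Ordering
  | 0 => ((0, 1, 0), [])
  | n + 1 => (stp lam t n (rn lam t s n).1 (s (rn lam t s n).2),
      (rn lam t s n).2 ++ [cmp (s (rn lam t s n).2) (hp lam t n (rn lam t s n).1)])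

/-- guess number `n` -/
noncomputable def gg (lam : ℤ → ℝ) (t : ℕ → ℝ) (s : Searcher) (n : ℕ) : ℝ :=
  s (rn lam t s n).2

lemma play_rn {N : ℕ} {fin : ℝ × ℝ × ℤ → ℝ} (s : Searcher) {n : ℕ} (hn : n ≤ N) :
    (play s (hid lam t N fin) n).2 = (rn lam t s n).2 ∧
      (hst lam t (play s (hid lam t N fin) n).1).2 = (rn lam t s n).1 := by
  induction n with
  | zero => exact ⟨rfl, rfl⟩
  | succ n ih =>
    obtain ⟨h1, h2⟩ := ih (by omega)
    have h3 : hid lam t N fin (play s (hid lam t N fin) n).1 =
        hp lam t n (rn lam t s n).1 := by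
      unfold hid
      rw [play_fst_length, if_pos (by omega)]
      rw [← h2]
      rfl
    constructor
    · show (play s (hid lam t N fin) n).2 ++ [cmp (s (play s (hid lam t N fin) n).2)
        (hid lam t N fin (play s (hid lam t N fin) n).1)] = _
      rw [h1, h3]
      rfl
    · show (hst lam t ((play s (hid lam t N fin) n).1 ++
        [s (play s (hid lam t N fin) n).2])).2 = _
      rw [hst_append, hst_fst, play_fst_length, h1, h2]
      rfl

lemma payoff_ge {N : ℕ} {fin : ℝ × ℝ × ℤ → ℝ} (s : Searcher) :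
    ENNReal.ofReal (∑ i ∈ Finset.range N, |gg lam t s i - fin (rn lam t s N).1|) ≤
      payoff s (hid lam t N fin) := by
  have hpos : ∀ n, N ≤ n → pos s (hid lam t N fin) n = fin (rn lam t s N).1 := by
    intro n hn
    unfold pos
    have e : hid lam t N fin (play s (hid lam t N fin) n).1 =
        fin (hst lam t ((play s (hid lam t N fin) n).1.take N)).2 := by
      conv_lhs => unfold hid
      rw [if_neg (by rw [play_fst_length]; omega)]
      rfl
    rw [e, play_fst_take s _ hn, (play_rn s le_rfl).2]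
  have hlim : Tendsto (pos s (hid lam t N fin)) atTop (𝓝 (fin (rn lam t s N).1)) :=
    tendsto_const_nhds.congr' (by
      filter_upwards [eventually_ge_atTop N] with n hn
      exact (hpos n hn).symm)
  refine le_iInf₂ fun x hx => ?_
  rw [tendsto_nhds_unique hx hlim]
  rw [ENNReal.ofReal_sum_of_nonneg fun _ _ => abs_nonneg _]
  refine le_trans (le_of_eq ?_) (ENNReal.sum_le_tsum (Finset.range N))
  refine Finset.sum_congr rfl fun i hi => ?_
  have : guess s (hid lam t N fin) i = gg lam t s i := by
    unfold guess gg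
    rw [(play_rn s (Finset.mem_range.1 hi).le).1]
  rw [this]

/-- no guess hits the hider before round `n` -/
def NT (lam : ℤ → ℝ) (t : ℕ → ℝ) (s : Searcher) (n : ℕ) : Prop :=
  ∀ i < n, gg lam t s i ≠ hp lam t i (rn lam t s i).1

/-- sum of the first terms -/
noncomputable def SS (lam : ℤ → ℝ) (t : ℕ → ℝ) (s : Searcher) (n : ℕ) (x : ℝ) : ℝ :=
  ∑ i ∈ Finset.range n, |gg lam t s i - x|

/-- what holds along the run -/
structure RI (lam : ℤ → ℝ) (w : ℤ → ℝ) (t : ℕ → ℝ) (δ M : ℝ) (s : Searcher) (n : ℕ) : Prop where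
  zero_le : 0 ≤ (rn lam t s n).1.1
  lt : (rn lam t s n).1.1 < (rn lam t s n).1.2.1
  le_one : (rn lam t s n).1.2.1 ≤ 1
  abs_le : |(rn lam t s n).1.2.2| ≤ n
  out : ∀ i < n, gg lam t s i ≤ (rn lam t s n).1.1 ∨ (rn lam t s n).1.2.1 ≤ gg lam t s i
  aff : ∀ h ∈ Set.Icc (rn lam t s n).1.1 (rn lam t s n).1.2.1,
    SS lam t s n h = SS lam t s n (rn lam t s n).1.1 +
      (rn lam t s n).1.2.2 * (h - (rn lam t s n).1.1)
  low : w 0 - n * (δ * M) ≤ SS lam t s n (rn lam t s n).1.1 +
    w (rn lam t s n).1.2.2 * ((rn lam t s n).1.2.1 - (rn lam t s n).1.1)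

lemma ri {w : ℤ → ℝ} (hw : Vals lam w) {N : ℕ} {δ M : ℝ}
    (ht : ∀ n < N, ∀ k : ℤ, |k| ≤ N → 0 < t n ∧ t n < 1 - lam k)
    (htδ : ∀ n < N, t n ≤ δ) (hδ : 0 ≤ δ) (hM : ∀ k : ℤ, |k| ≤ N → 1 + w (k - 1) ≤ M)
    (s : Searcher) {n : ℕ} (hn : n ≤ N) (hnt : NT lam t s n) : RI lam w t δ M s n := by
  induction n with
  | zero =>
    have e : (rn lam t s 0).1 = (0, 1, 0) := rfl
    constructor
    · rw [e]
    · rw [e]; exact zero_lt_one
    · rw [e]
    · rw [e]; simp
    · intro i hi; omega
    · intro h _; simp [SS, e]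
    · simp [SS, e]
  | succ n ih =>
    have hI := ih (by omega) fun i hi => hnt i (by omega)
    set q := (rn lam t s n).1 with hq
    set g := gg lam t s n with hg
    have hnN : n < N := by omega
    have hk : |q.2.2| ≤ N := hI.abs_le.trans (by exact_mod_cast hnN.le)
    obtain ⟨ht0, ht1⟩ := ht n hnN q.2.2 hk
    obtain ⟨hl0, hl1⟩ := hw.lam_mem q.2.2
    have hne : g ≠ hp lam t n q := hnt n (by omega)
    set hh := hp lam t n q with hhh
    have hhv : hh = q.1 + (1 - lam q.2.2 - t n) * (q.2.1 - q.1) := rfl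
    have hab := hI.lt
    have hh1 : q.1 < hh := by rw [hhv]; nlinarith
    have hh2 : hh < q.2.1 := by rw [hhv]; nlinarith
    have e : (rn lam t s (n + 1)).1 = stp lam t n q g := rfl
    have hSS : ∀ x, SS lam t s (n + 1) x = SS lam t s n x + |g - x| := fun x => by
      unfold SS
      rw [Finset.sum_range_succ]
    have hkabs : |q.2.2 + 1| ≤ ((n + 1 : ℕ) : ℤ) := by
      have h1 := hI.abs_le
      rw [abs_le] at h1 ⊢
      push_cast
      constructor <;> linarith [h1.1, h1.2]
    have hkabs' : |q.2.2 - 1| ≤ ((n + 1 : ℕ) : ℤ) := by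
      have h1 := hI.abs_le
      rw [abs_le] at h1 ⊢
      push_cast
      constructor <;> linarith [h1.1, h1.2]
    rcases lt_or_gt_of_ne hne with hlt | hgt
    · have es : stp lam t n q g = (max q.1 g, q.2.1, q.2.2 + 1) := if_pos hlt
      have hmax : max q.1 g < hh := max_lt hh1 hlt
      have haff' : ∀ h ∈ Set.Icc (max q.1 g) q.2.1, SS lam t s (n + 1) h =
          SS lam t s n q.1 + q.2.2 * (h - q.1) + (h - g) := by
        intro h hh'
        rw [hSS, hI.aff h ⟨(le_max_left _ _).trans hh'.1, hh'.2⟩]
        rw [abs_of_nonpos (by linarith [(le_max_right q.1 g).trans hh'.1] : g - h ≤ 0)]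
        ring
      constructor
      · rw [e, es]; exact hI.zero_le.trans (le_max_left _ _)
      · rw [e, es]; exact hmax.trans hh2
      · rw [e, es]; exact hI.le_one
      · rw [e, es]; exact hkabs
      · intro i hi
        rw [e, es]
        rcases Nat.lt_succ_iff_lt_or_eq.1 hi with h1 | h1
        · rcases hI.out i h1 with h2 | h2
          · exact Or.inl (h2.trans (le_max_left _ _))
          · exact Or.inr h2
        · subst h1
          exact Or.inl (le_max_right _ _)
      · intro h hh'
        rw [e, es] at hh' ⊢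
        simp only at hh' ⊢
        rw [haff' h hh', haff' (max q.1 g) ⟨le_rfl, (hmax.trans hh2).le⟩]
        push_cast
        ring
      · rw [e, es]
        simp only
        rw [haff' (max q.1 g) ⟨le_rfl, (hmax.trans hh2).le⟩]
        have h3 := hI.low
        have h4 := hw.right q.2.2
        have h5 := hw.ge (q.2.2 + 1)
        have h6 : g ≤ max q.1 g := le_max_right _ _
        have hM0 : 0 ≤ M := by
          have := hM q.2.2 hk
          linarith [hw.nonneg (q.2.2 - 1)]
        have h7 : 0 ≤ δ * M := mul_nonneg hδ hM0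
        -- `x = max - a ≤ (1 - lam) (b - a)`
        have h8 : max q.1 g - q.1 ≤ (1 - lam q.2.2) * (q.2.1 - q.1) := by
          have : hh - q.1 ≤ (1 - lam q.2.2) * (q.2.1 - q.1) := by rw [hhv]; nlinarith
          linarith
        push_cast at h5 ⊢
        have h9 : w q.2.2 * (q.2.1 - q.1) ≤ q.2.2 * (max q.1 g - q.1) +
            w (q.2.2 + 1) * (q.2.1 - max q.1 g) := by
          rw [h4]
          nlinarith
        nlinarith
    · have es : stp lam t n q g = (q.1, min q.2.1 g, q.2.2 - 1) := by
        unfold stp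
        rw [if_neg (by rw [← hhh]; exact hgt.le.not_gt), if_pos (by rw [← hhh]; exact hgt)]
      have hmin : hh < min q.2.1 g := lt_min hh2 hgt
      have haff' : ∀ h ∈ Set.Icc q.1 (min q.2.1 g), SS lam t s (n + 1) h =
          SS lam t s n q.1 + q.2.2 * (h - q.1) + (g - h) := by
        intro h hh'
        rw [hSS, hI.aff h ⟨hh'.1, hh'.2.trans (min_le_left _ _)⟩]
        rw [abs_of_nonneg (by linarith [hh'.2.trans (min_le_right q.2.1 g)] : 0 ≤ g - h)]
      constructor
      · rw [e, es]; exact hI.zero_le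
      · rw [e, es]; exact hh1.trans hmin
      · rw [e, es]; exact (min_le_left _ _).trans hI.le_one
      · rw [e, es]; exact hkabs'
      · intro i hi
        rw [e, es]
        rcases Nat.lt_succ_iff_lt_or_eq.1 hi with h1 | h1
        · rcases hI.out i h1 with h2 | h2
          · exact Or.inl h2
          · exact Or.inr ((min_le_left _ _).trans h2)
        · subst h1
          exact Or.inr (min_le_right _ _)
      · intro h hh'
        rw [e, es] at hh' ⊢
        simp only at hh' ⊢
        rw [haff' h hh', haff' q.1 ⟨le_rfl, (hh1.trans hmin).le⟩]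
        push_cast
        ring
      · rw [e, es]
        simp only
        rw [haff' q.1 ⟨le_rfl, (hh1.trans hmin).le⟩]
        have h3 := hI.low
        have h4 := hw.left q.2.2
        have h5 := hM q.2.2 hk
        have h5' := hw.nonneg (q.2.2 - 1)
        have h6 : min q.2.1 g ≤ g := min_le_right _ _
        have hℓ : q.2.1 - q.1 ≤ 1 := by linarith [hI.le_one, hI.zero_le]
        have htd := htδ n hnN
        have h8 : (1 - lam q.2.2 - t n) * (q.2.1 - q.1) ≤ min q.2.1 g - q.1 := by
          have : hh - q.1 = (1 - lam q.2.2 - t n) * (q.2.1 - q.1) := by rw [hhv]; ring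
          linarith
        have h9 : (1 + w (q.2.2 - 1)) * ((1 - lam q.2.2 - t n) * (q.2.1 - q.1)) ≤
            (1 + w (q.2.2 - 1)) * (min q.2.1 g - q.1) :=
          mul_le_mul_of_nonneg_left h8 (by linarith)
        have h10 : t n * (q.2.1 - q.1) ≤ δ := by
          calc t n * (q.2.1 - q.1) ≤ t n * 1 := by gcongr
            _ ≤ δ := by linarith
        have h11 : (1 + w (q.2.2 - 1)) * (t n * (q.2.1 - q.1)) ≤ M * δ := by
          apply mul_le_mul h5 h10
          · exact mul_nonneg ht0.le (by linarith)
          · linarith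
        have h12 : w q.2.2 * (q.2.1 - q.1) = (1 + w (q.2.2 - 1)) *
            ((1 - lam q.2.2 - t n) * (q.2.1 - q.1)) +
            (1 + w (q.2.2 - 1)) * (t n * (q.2.1 - q.1)) := by
          rw [h4]; ring
        push_cast
        nlinarith

end

/-! ### Measurability -/

instance instMeasOrd : MeasurableSpace Ordering := ⊤

instance instDiscOrd : DiscreteMeasurableSpace Ordering := ⟨fun _ => trivial⟩

instance instMeasListOrd : MeasurableSpace (List Ordering) := ⊤

instance instDiscListOrd : DiscreteMeasurableSpace (List Ordering) := ⟨fun _ => trivial⟩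

lemma meas_hp (lam : ℤ → ℝ) (t : ℕ → ℝ) (n : ℕ) :
    Measurable fun q : ℝ × ℝ × ℤ => hp lam t n q := by
  have hl : Measurable lam := Measurable.of_discrete
  unfold hp
  fun_prop

lemma meas_stp (lam : ℤ → ℝ) (t : ℕ → ℝ) (n : ℕ) :
    Measurable fun p : (ℝ × ℝ × ℤ) × ℝ => stp lam t n p.1 p.2 := by
  have hh : Measurable fun p : (ℝ × ℝ × ℤ) × ℝ => hp lam t n p.1 :=
    (meas_hp lam t n).comp measurable_fst
  unfold stp
  refine Measurable.ite (measurableSet_lt measurable_snd hh) (by fun_prop) ?_
  exact Measurable.ite (measurableSet_lt hh measurable_snd) (by fun_prop) (by fun_prop)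

lemma meas_cmp : Measurable fun p : ℝ × ℝ => cmp p.1 p.2 := by
  refine measurable_to_countable' fun o => ?_
  rcases o with _ | _ | _
  · have : (fun p : ℝ × ℝ => cmp p.1 p.2) ⁻¹' {Ordering.lt} = {p | p.1 < p.2} := by
      ext p
      exact cmp_eq_lt_iff _ _
    rw [this]
    exact measurableSet_lt measurable_fst measurable_snd
  · have : (fun p : ℝ × ℝ => cmp p.1 p.2) ⁻¹' {Ordering.eq} = {p | p.1 = p.2} := by
      ext p
      exact cmp_eq_eq_iff _ _
    rw [this]
    exact measurableSet_eq_fun measurable_fst measurable_snd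
  · have : (fun p : ℝ × ℝ => cmp p.1 p.2) ⁻¹' {Ordering.gt} = {p | p.2 < p.1} := by
      ext p
      exact cmp_eq_gt_iff _ _
    rw [this]
    exact measurableSet_lt measurable_snd measurable_fst

lemma meas_eval {f : Searcher → List Ordering} (hf : Measurable f) :
    Measurable fun s : Searcher => s (f s) := by
  have h : Measurable fun p : Searcher × List Ordering => p.1 p.2 :=
    measurable_from_prod_countable_left fun l => measurable_pi_apply l
  exact h.comp (measurable_id.prodMk hf)

lemma meas_rn (lam : ℤ → ℝ) (t : ℕ → ℝ) (n : ℕ) :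
    Measurable fun s : Searcher => rn lam t s n := by
  induction n with
  | zero => exact measurable_const
  | succ n ih =>
    have h1 : Measurable fun s : Searcher => (rn lam t s n).1 := ih.fst
    have h2 : Measurable fun s : Searcher => (rn lam t s n).2 := ih.snd
    have h3 := meas_eval h2
    have h4 : Measurable fun s : Searcher => stp lam t n (rn lam t s n).1 (s (rn lam t s n).2) :=
      (meas_stp lam t n).comp (h1.prodMk h3)
    have h5 : Measurable fun s : Searcher =>
        cmp (s (rn lam t s n).2) (hp lam t n (rn lam t s n).1) :=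
      meas_cmp.comp (h3.prodMk ((meas_hp lam t n).comp h1))
    have h6 : Measurable fun p : List Ordering × Ordering => p.1 ++ [p.2] :=
      Measurable.of_discrete
    exact h4.prodMk (h6.comp (h2.prodMk h5))

lemma meas_gg (lam : ℤ → ℝ) (t : ℕ → ℝ) (n : ℕ) :
    Measurable fun s : Searcher => gg lam t s n := meas_eval (meas_rn lam t n).snd

lemma rn_congr {lam : ℤ → ℝ} {t t' : ℕ → ℝ} (s : Searcher) {n : ℕ} (h : ∀ i < n, t i = t' i) :
    rn lam t s n = rn lam t' s n := by
  induction n with
  | zero => rfl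
  | succ n ih =>
    have h1 := ih fun i hi => h i (by omega)
    have h2 : hp lam t n = hp lam t' n := by
      funext q
      unfold hp
      rw [h n (by omega)]
    have h3 : stp lam t n = stp lam t' n := by
      funext q g
      unfold stp
      rw [h2]
    simp only [rn, h1, h2, h3]

/-- perturbations for which ties have probability zero -/
lemma exists_t (lam : ℤ → ℝ) (P : Measure Searcher) [IsProbabilityMeasure P] {δ : ℝ}
    (hδ : 0 < δ) (N : ℕ) : ∃ t : ℕ → ℝ, (∀ i, 0 < t i ∧ t i < δ) ∧
      ∀ n < N, P {s | gg lam t s n = hp lam t n (rn lam t s n).1 ∧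
        (rn lam t s n).1.1 < (rn lam t s n).1.2.1} = 0 := by
  induction N with
  | zero => exact ⟨fun _ => δ / 2, fun _ => ⟨by linarith, by linarith⟩, fun n hn => by omega⟩
  | succ N ih =>
    obtain ⟨t, ht, hP⟩ := ih
    set X : Searcher → ℝ := fun s => 1 - lam (rn lam t s N).1.2.2 -
      (gg lam t s N - (rn lam t s N).1.1) / ((rn lam t s N).1.2.1 - (rn lam t s N).1.1) with hX
    have hl : Measurable lam := Measurable.of_discrete
    have hr := meas_rn lam t N
    have hg := meas_gg lam t N
    have hXm : Measurable X := by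
      have h1 : Measurable fun s : Searcher => (rn lam t s N).1.1 := hr.fst.fst
      have h2 : Measurable fun s : Searcher => (rn lam t s N).1.2.1 := hr.fst.snd.fst
      have h3 : Measurable fun s : Searcher => lam (rn lam t s N).1.2.2 :=
        hl.comp hr.fst.snd.snd
      fun_prop
    have hcount := Measure.countable_meas_level_set_pos (μ := P) hXm
    obtain ⟨x, hx, hx0, hx1⟩ := (hcount.dense_compl ℝ).exists_between hδ
    have hPx : P {s | X s = x} = 0 := by
      by_contra h
      exact hx (pos_iff_ne_zero.2 h)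
    refine ⟨Function.update t N x, fun i => ?_, fun n hn => ?_⟩
    · by_cases hi : i = N
      · subst hi
        simp only [Function.update_self]
        exact ⟨hx0, hx1⟩
      · rw [Function.update_of_ne hi]
        exact ht i
    · have hc : ∀ s, rn lam (Function.update t N x) s n = rn lam t s n := fun s =>
        rn_congr s fun i hi => Function.update_of_ne (by omega) _ _
      rcases Nat.lt_succ_iff_lt_or_eq.1 hn with h1 | h1
      · have h2 : hp lam (Function.update t N x) n = hp lam t n := by
          funext q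
          unfold hp
          rw [Function.update_of_ne (by omega)]
        have h3 := hP n h1
        simp only [gg, hc, h2] at h3 ⊢
        exact h3
      · subst h1
        refine measure_mono_null ?_ hPx
        rintro s ⟨hs1, hs2⟩
        simp only [gg, hc] at hs1 hs2
        have h4 : (rn lam t s n).1.2.1 - (rn lam t s n).1.1 ≠ 0 := by
          have := hs2
          exact (sub_pos.2 this).ne'
        show X s = x
        simp only [hX, gg]
        rw [hs1]
        simp only [hp, Function.update_self]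
        field_simp
        ring

/-! ### The lower bound -/

lemma w_le {lam : ℤ → ℝ} {w : ℤ → ℝ} (hw : Vals lam w) (k : ℤ) :
    w k ≤ max (k : ℝ) 0 + w 0 := by
  induction k using Int.induction_on with
  | zero => simp
  | succ n ih =>
    have h1 := hw.left ((n : ℤ) + 1)
    rw [add_sub_cancel_right] at h1
    have h2 := hw.lam_mem ((n : ℤ) + 1)
    have h3 := hw.nonneg (n : ℤ)
    have hn : (0 : ℝ) ≤ n := Nat.cast_nonneg n
    push_cast at ih ⊢
    rw [max_eq_left hn] at ih
    rw [max_eq_left (by linarith)]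
    rw [h1]
    nlinarith
  | pred n ih =>
    have h1 := hw.right (-(n : ℤ) - 1)
    rw [sub_add_cancel] at h1
    have h2 := hw.lam_mem (-(n : ℤ) - 1)
    have h3 := hw.nonneg (-(n : ℤ))
    have hn : (0 : ℝ) ≤ n := Nat.cast_nonneg n
    push_cast at ih h1 ⊢
    rw [max_eq_right (by linarith)] at ih
    rw [max_eq_right (by linarith)]
    rw [h1]
    nlinarith

lemma key {lam : ℤ → ℝ} {w : ℤ → ℝ} (hw : Vals lam w) (P : Measure Searcher)
    [IsProbabilityMeasure P] {ε : ℝ} (hε : 0 < ε) :
    ∃ H, Valid H ∧ ENNReal.ofReal (w 0 - ε) ≤ ∫⁻ s, payoff s H ∂P := by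
  have hw0 := hw.nonneg 0
  set C : ℝ := w 0 + 1 with hC
  have hCpos : 0 < C := by linarith
  set ε' : ℝ := ε / 2 with hε'
  have hε'pos : 0 < ε' := by positivity
  obtain ⟨N0, hN0⟩ := exists_nat_ge (2 * C * w 0 / ε')
  set N : ℕ := N0 + 1 with hN
  have hN1 : (1 : ℝ) ≤ N := by rw [hN]; push_cast; linarith [Nat.cast_nonneg (α := ℝ) N0]
  have hNbig : 2 * C * w 0 / ε' ≤ N := hN0.trans (by rw [hN]; push_cast; linarith)
  set M : ℝ := 1 + ∑ k ∈ Finset.Icc (-(N : ℤ) - 1) N, w k with hM
  have hMk : ∀ k : ℤ, |k| ≤ N → 1 + w (k - 1) ≤ M := by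
    intro k hk
    rw [abs_le] at hk
    have := Finset.single_le_sum (f := w) (fun i _ => hw.nonneg i)
      (show k - 1 ∈ Finset.Icc (-(N : ℤ) - 1) N from
        Finset.mem_Icc.2 ⟨by linarith [hk.1], by linarith [hk.2]⟩)
    linarith
  have hMpos : 0 < M := by
    have : 0 ≤ ∑ k ∈ Finset.Icc (-(N : ℤ) - 1) N, w k := Finset.sum_nonneg fun i _ => hw.nonneg i
    linarith
  have hne : (Finset.Icc (-(N : ℤ)) N).Nonempty := ⟨0, Finset.mem_Icc.2 ⟨by simp, by simp⟩⟩
  set δ0 : ℝ := (Finset.Icc (-(N : ℤ)) N).inf' hne fun k => 1 - lam k with hδ0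
  have hδ0pos : 0 < δ0 := by
    rw [hδ0, Finset.lt_inf'_iff]
    intro k _
    linarith [(hw.lam_mem k).2]
  have hδ0le : ∀ k : ℤ, |k| ≤ N → δ0 ≤ 1 - lam k := by
    intro k hk
    rw [abs_le] at hk
    exact Finset.inf'_le _ (Finset.mem_Icc.2 hk)
  set δ : ℝ := min δ0 (ε' / (N * M)) with hδ
  have hNM : 0 < (N : ℝ) * M := by positivity
  have hδpos : 0 < δ := lt_min hδ0pos (by positivity)
  have hNδM : N * (δ * M) ≤ ε' := by
    have h1 : δ ≤ ε' / (N * M) := min_le_right _ _
    rw [le_div_iff₀ hNM] at h1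
    linarith
  obtain ⟨t, ht, hP⟩ := exists_t lam P hδpos N
  have ht' : ∀ n < N, ∀ k : ℤ, |k| ≤ N → 0 < t n ∧ t n < 1 - lam k := fun n _ k hk =>
    ⟨(ht n).1, (ht n).2.trans_le ((min_le_left _ _).trans (hδ0le k hk))⟩
  -- almost surely there is no tie
  have hRI : ∀ᵐ s ∂P, RI lam w t δ M s N := by
    have h1 : ∀ᵐ s ∂P, ∀ n < N, ¬ (gg lam t s n = hp lam t n (rn lam t s n).1 ∧
        (rn lam t s n).1.1 < (rn lam t s n).1.2.1) := by
      rw [ae_all_iff]
      intro n
      by_cases hn : n < N
      · have : ∀ᵐ s ∂P, ¬ (gg lam t s n = hp lam t n (rn lam t s n).1 ∧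
            (rn lam t s n).1.1 < (rn lam t s n).1.2.1) := by
          rw [ae_iff]
          simpa only [not_not] using hP n hn
        filter_upwards [this] with s hs _
        exact hs
      · exact Eventually.of_forall fun s h => absurd h hn
    filter_upwards [h1] with s hs
    have h2 : ∀ n ≤ N, NT lam t s n := by
      intro n hn
      induction n with
      | zero => intro i hi; omega
      | succ n ih =>
        have h3 := ih (by omega)
        have h4 := ri hw ht' (fun n _ => (ht n).2.le) hδpos.le hMk s (by omega : n ≤ N) h3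
        intro i hi
        rcases Nat.lt_succ_iff_lt_or_eq.1 hi with h5 | h5
        · exact h3 i h5
        · subst h5
          exact fun h6 => hs i (by omega) ⟨h6, h4.lt⟩
    exact ri hw ht' (fun n _ => (ht n).2.le) hδpos.le hMk s le_rfl (h2 N le_rfl)
  -- the length of the last interval
  set ℓ : Searcher → ℝ := fun s => (rn lam t s N).1.2.1 - (rn lam t s N).1.1 with hℓ
  have hℓm : Measurable ℓ := by
    have hr := meas_rn lam t N
    have h1 : Measurable fun s : Searcher => (rn lam t s N).1.1 := hr.fst.fst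
    have h2 : Measurable fun s : Searcher => (rn lam t s N).1.2.1 := hr.fst.snd.fst
    exact h2.sub h1
  have hℓb : ∀ᵐ s ∂P, 0 ≤ ℓ s ∧ ℓ s ≤ 1 := by
    filter_upwards [hRI] with s hs
    have a1 := hs.zero_le
    have a2 := hs.lt
    have a3 := hs.le_one
    simp only [hℓ]
    constructor <;> linarith
  have hℓint : Integrable ℓ P := by
    refine Integrable.of_bound hℓm.aestronglyMeasurable 1 ?_
    filter_upwards [hℓb] with s hs
    rw [Real.norm_eq_abs, abs_of_nonneg hs.1]
    exact hs.2
  set e : ℝ := ∫ s, ℓ s ∂P with he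
  by_cases hcase : C * e ≤ ε'
  · -- the interval is short on average
    set η : ℝ := 1 / (N + 1) with hη
    have hη0 : 0 < η := by positivity
    have hη1 : η < 1 := by
      rw [hη, div_lt_one (by positivity)]
      linarith
    have hηN : N * η ≤ 1 := by
      rw [hη, mul_one_div, div_le_one (by positivity)]
      linarith
    let fin : ℝ × ℝ × ℤ → ℝ := fun q =>
      if 0 ≤ q.2.2 then q.1 + (1 - η) * (q.2.1 - q.1) else q.1 + η * (q.2.1 - q.1)
    have hfin : FinOK fin := by
      intro q
      by_cases hq : 0 ≤ q.2.2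
      · exact ⟨1 - η, by linarith, by linarith, if_pos hq⟩
      · exact ⟨η, hη0, hη1, if_neg hq⟩
    refine ⟨hid lam t N fin, hid_valid hw.lam_mem ht' hfin, ?_⟩
    have hbd : ∀ᵐ s ∂P, ENNReal.ofReal (w 0 - ε' - C * ℓ s) ≤ payoff s (hid lam t N fin) := by
      filter_upwards [hRI] with s hs
      refine le_trans (ENNReal.ofReal_le_ofReal ?_) (payoff_ge s)
      have a2 := hs.lt
      have hlow := hs.low
      have habs := abs_le.1 hs.abs_le
      set q := (rn lam t s N).1 with hq
      have hwle := w_le hw q.2.2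
      have hk1 : (q.2.2 : ℝ) ≤ N := by exact_mod_cast habs.2
      have hk2 : -(N : ℝ) ≤ q.2.2 := by exact_mod_cast habs.1
      have hℓs : ℓ s = q.2.1 - q.1 := rfl
      have hmem : fin q ∈ Set.Icc q.1 q.2.1 := by
        obtain ⟨r, hr0, hr1, hr⟩ := hfin q
        rw [hr]
        constructor <;> nlinarith
      have haff := hs.aff (fin q) hmem
      have hSS : ∑ i ∈ Finset.range N, |gg lam t s i - fin q| = SS lam t s N (fin q) := rfl
      rw [hSS, haff]
      have hgoal : (w q.2.2 - C) * (q.2.1 - q.1) ≤ q.2.2 * (fin q - q.1) := by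
        by_cases hq0 : 0 ≤ q.2.2
        · have hf : fin q = q.1 + (1 - η) * (q.2.1 - q.1) := if_pos hq0
          have hq0' : (0 : ℝ) ≤ q.2.2 := by exact_mod_cast hq0
          rw [max_eq_left hq0'] at hwle
          have h5 : w q.2.2 - C ≤ q.2.2 * (1 - η) := by nlinarith
          rw [hf]
          nlinarith
        · have hf : fin q = q.1 + η * (q.2.1 - q.1) := if_neg hq0
          have hq0' : (q.2.2 : ℝ) ≤ 0 := by exact_mod_cast (not_le.1 hq0).le
          rw [max_eq_right hq0'] at hwle
          have h5 : w q.2.2 - C ≤ q.2.2 * η := by nlinarith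
          rw [hf]
          nlinarith
      rw [hℓs]
      linarith
    have hint : Integrable (fun s => w 0 - ε' - C * ℓ s) P :=
      (integrable_const _).sub (hℓint.const_mul C)
    calc ENNReal.ofReal (w 0 - ε) ≤ ENNReal.ofReal (∫ s, (w 0 - ε' - C * ℓ s) ∂P) := by
          refine ENNReal.ofReal_le_ofReal ?_
          rw [integral_sub (integrable_const _) (hℓint.const_mul C), integral_const_mul]
          simp only [integral_const, probReal_univ, one_smul]
          have : ε = ε' + ε' := by rw [hε']; ring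
          linarith
      _ ≤ ENNReal.ofReal (∫ s, max (w 0 - ε' - C * ℓ s) 0 ∂P) := by
          refine ENNReal.ofReal_le_ofReal (integral_mono hint hint.pos_part fun s => ?_)
          exact le_max_left _ _
      _ = ∫⁻ s, ENNReal.ofReal (max (w 0 - ε' - C * ℓ s) 0) ∂P := by
          exact ofReal_integral_eq_lintegral_ofReal hint.pos_part
            (Eventually.of_forall fun s => le_max_right _ _)
      _ = ∫⁻ s, ENNReal.ofReal (w 0 - ε' - C * ℓ s) ∂P := by
          refine lintegral_congr fun s => ?_
          rcases le_total 0 (w 0 - ε' - C * ℓ s) with h | h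
          · rw [max_eq_left h]
          · rw [max_eq_right h, ENNReal.ofReal_of_nonpos h, ENNReal.ofReal_zero]
      _ ≤ ∫⁻ s, payoff s (hid lam t N fin) ∂P := lintegral_mono_ae hbd
  · -- the interval is long on average
    push Not at hcase
    let fin : ℝ × ℝ × ℤ → ℝ := fun q => q.1 + (1 / 2) * (q.2.1 - q.1)
    have hfin : FinOK fin := fun q => ⟨1 / 2, by norm_num, by norm_num, rfl⟩
    refine ⟨hid lam t N fin, hid_valid hw.lam_mem ht' hfin, ?_⟩
    have hbd : ∀ᵐ s ∂P, ENNReal.ofReal (N * (ℓ s / 2)) ≤ payoff s (hid lam t N fin) := by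
      filter_upwards [hRI] with s hs
      refine le_trans (ENNReal.ofReal_le_ofReal ?_) (payoff_ge s)
      have a2 := hs.lt
      have hterm : ∀ i ∈ Finset.range N, ℓ s / 2 ≤ |gg lam t s i - fin (rn lam t s N).1| := by
        intro i hi
        have hℓs : ℓ s = (rn lam t s N).1.2.1 - (rn lam t s N).1.1 := rfl
        have hf : fin (rn lam t s N).1 = (rn lam t s N).1.1 +
          (1 / 2) * ((rn lam t s N).1.2.1 - (rn lam t s N).1.1) := rfl
        rw [hℓs, hf]
        rcases hs.out i (Finset.mem_range.1 hi) with h1 | h1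
        · rw [abs_of_nonpos (by linarith)]
          linarith
        · rw [abs_of_nonneg (by linarith)]
          linarith
      calc N * (ℓ s / 2) = ∑ _i ∈ Finset.range N, ℓ s / 2 := by simp
        _ ≤ _ := Finset.sum_le_sum hterm
    calc ENNReal.ofReal (w 0 - ε) ≤ ENNReal.ofReal (∫ s, N * (ℓ s / 2) ∂P) := by
          refine ENNReal.ofReal_le_ofReal ?_
          rw [integral_const_mul, integral_div]
          have h1 : 2 * C * w 0 ≤ N * ε' := by rwa [div_le_iff₀ hε'pos] at hNbig
          have h2 : N * ε' ≤ N * (C * e) := by gcongr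
          have h3 : C * (2 * w 0) ≤ C * (N * e) := by nlinarith
          have h4 : 2 * w 0 ≤ N * e := le_of_mul_le_mul_left h3 hCpos
          rw [← he]
          linarith
      _ = ∫⁻ s, ENNReal.ofReal (N * (ℓ s / 2)) ∂P := by
          refine ofReal_integral_eq_lintegral_ofReal ((hℓint.div_const 2).const_mul _) ?_
          filter_upwards [hℓb] with s hs
          have := hs.1
          show (0 : ℝ) ≤ N * (ℓ s / 2)
          positivity
      _ ≤ ∫⁻ s, payoff s (hid lam t N fin) ∂P := lintegral_mono_ae hbd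

/-- In the mobile-hider game with payoff `∑ |g_n - h_∞|`, Alpern's pure strategy is an optimal
searcher strategy: it guarantees the static value `v` against every (pure, hence every mixed) hider
strategy, and for every mixed searcher strategy `P` the supremum over the pure hider strategies of
the expected payoff is at least `v`. (Alpern's family exists and has a finite value `v`.) -/
theorem result : (∃ (lam : ℤ → ℝ) (v : ℝ≥0∞), v ≠ ⊤ ∧ IsAlpern lam v) ∧
    ∀ (lam : ℤ → ℝ) (v : ℝ≥0∞), v ≠ ⊤ → IsAlpern lam v →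
      (∀ H : Hider, Valid H → payoff (alpern lam) H ≤ v) ∧
      ∀ (P : Measure Searcher) [IsProbabilityMeasure P],
        v ≤ ⨆ (H : Hider) (_ : Valid H), ∫⁻ s, payoff s H ∂P := by
  refine ⟨Pool.Agent.Results.MP_a09a4b_an.MixedBeatsAlpern.result.1, fun lam v hv hA => ?_⟩
  obtain ⟨w, hw, hw0⟩ := exists_vals hv hA
  constructor
  · intro H hH
    refine (alpern_upper hw hH).trans ?_
    rw [hw0, ENNReal.ofReal_toReal hv]
  · intro P _
    refine ENNReal.le_of_forall_pos_le_add fun ε hε _ => ?_
    obtain ⟨H, hH, hle⟩ := key hw P (ε := ε) (by exact_mod_cast hε)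
    have h1 : v ≤ ENNReal.ofReal (w 0 - ε) + ε := by
      have h2 : v = ENNReal.ofReal (w 0) := by rw [hw0, ENNReal.ofReal_toReal hv]
      rw [h2]
      have h3 : (ε : ℝ≥0∞) = ENNReal.ofReal (ε : ℝ) := (ENNReal.ofReal_coe_nnreal).symm
      rw [h3]
      calc ENNReal.ofReal (w 0) = ENNReal.ofReal (w 0 - ε + ε) := by rw [sub_add_cancel]
        _ ≤ _ := ENNReal.ofReal_add_le
    refine h1.trans ?_
    gcongr
    exact hle.trans (le_iSup₂ (f := fun (H : Hider) (_ : Valid H) => ∫⁻ s, payoff s H ∂P) H hH)

end Pool.Agent.Results.MP_b21e06_an.AlpernOptimal
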